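import Pool.Agent.TD.OV.Rel
import Pool.Agent.TD.T.All

/-!
# Bounded fractions in one variable (MP_90358a_ag, PAPER2.md ND6, OV)

The proof uses the roots of the polynomials in an algebraic closure instead of the seminorm `N` of
the paper proof: if a root `a` of `α` is at distance `≥ ρ` from all roots of `X β`, then the path of
discs with centre `a` gives a contradiction; otherwise `α` divides a power of `X β` up to smaller
terms.
-/

open scoped Topology NNReal Polynomial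
open Polynomial

namespace Pool.Agent.TD

section

variable {κ L : Type} [NormedField κ] [IsUltrametricDist κ] [Field L] [Algebra κ L]

/-- The points with centre `a` and radius `s`. -/
noncomputable def ovp (N : Ber κ L) (a : L) (s : ℝ≥0) : Ber κ κ[X] :=
  Ber.res (Polynomial.aeval (X + C a : L[X]) : κ[X] →ₐ[κ] L[X]) (gx N s)

omit [IsUltrametricDist κ] in
theorem ovp_v (N : Ber κ L) (a : L) (s : ℝ≥0) (f : κ[X]) :
    (ovp N a s).v f = (gx N s).v ((f.map (algebraMap κ L)).comp (X + C a)) := by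
  show (gx N s).v (Polynomial.aeval (X + C a : L[X]) f) = _
  rw [comp, eval₂_map, aeval_def]
  rfl

theorem gx_map (N : Ber κ L) (s : ℝ≥0) (f : κ[X]) :
    (gx N s).v (f.map (algebraMap κ L)) = (gx (nrm κ) s).v f := by
  have hN : ∀ i, N.v ((f.map (algebraMap κ L)).coeff i) = (nrm κ).v (f.coeff i) := by
    intro i
    rw [coeff_map, N.ext]
    rfl
  apply le_antisymm
  · refine gx_v_le _ _ _ ((gx (nrm κ) s).nonneg f) fun i => ?_
    rw [hN]; exact gx_le _ _ _ i
  · refine gx_v_le _ _ _ ((gx N s).nonneg _) fun i => ?_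
    rw [← hN]; exact gx_le _ _ _ i

theorem ovp_top (N : Ber κ L) {a : L} {s : ℝ≥0} (ha : N.v a ≤ s) : ovp N a s = gx (nrm κ) s := by
  apply Ber.ext_v
  intro f
  rw [ovp_v, gx_trans N s ha, gx_map]

omit [IsUltrametricDist κ] in
theorem continuous_ovp (N : Ber κ L) (a : L) : Continuous fun s : ℝ≥0 => ovp N a s :=
  (Ber.res_continuous _).comp (continuous_gx.comp (continuous_const.prodMk continuous_id))

omit [IsUltrametricDist κ] in
theorem ovp_mono (N : Ber κ L) (a : L) {s s' : ℝ≥0} (h : s ≤ s') : ovp N a s ≤ ovp N a s' := by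
  intro f
  rw [ovp_v, ovp_v]
  exact gx_mono le_rfl h _

/-- At a root the norm is smaller. -/
theorem ovp_lt (N : Ber κ L) {a : L} {s ρ : ℝ≥0} (ha : N.v a ≤ ρ) (hs : s < ρ) {α : κ[X]}
    (hα : α ≠ 0) (hroot : (α.map (algebraMap κ L)).eval a = 0) :
    (ovp N a s).v α < (gx (nrm κ) ρ).v α := by
  have hρ : 0 < ρ := lt_of_le_of_lt zero_le hs
  have hpos : 0 < (gx (nrm κ) ρ).v α := gx_pos _ hρ hα
  rw [← ovp_top N ha] at hpos ⊢
  rw [ovp_v] at hpos ⊢
  rw [ovp_v]
  obtain ⟨i, hi⟩ := gx_ex N s ((α.map (algebraMap κ L)).comp (X + C a))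
  rw [hi]
  rcases Nat.eq_zero_or_pos i with h0 | h0
  · subst h0
    rw [coeff_zero_eq_eval_zero, eval_comp, eval_add, eval_X, eval_C, zero_add, hroot, N.zero,
      zero_mul]
    exact hpos
  · rcases (N.nonneg (((α.map (algebraMap κ L)).comp (X + C a)).coeff i)).eq_or_lt with h1 | h1
    · rw [← h1, zero_mul]; exact hpos
    · refine lt_of_lt_of_le ?_ (gx_le N ρ _ i)
      refine mul_lt_mul_of_pos_left ?_ h1
      exact pow_lt_pow_left₀ (by exact_mod_cast hs) (NNReal.coe_nonneg s) h0.ne'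

/-- Away from the roots the norm is constant. -/
theorem ovp_eq [IsAlgClosed L] (N : Ber κ L) {a : L} {s ρ : ℝ≥0} (ha : N.v a ≤ ρ) (hs : s ≤ ρ)
    {β : κ[X]} (h : ∀ b ∈ (β.map (algebraMap κ L)).roots, (ρ : ℝ) ≤ N.v (a - b)) :
    (ovp N a s).v β = (gx (nrm κ) ρ).v β := by
  rw [← ovp_top N ha, ovp_v, ovp_v]
  -- as points of `M(L[X])`
  obtain ⟨T, hT⟩ : ∃ T : L[X] →ₐ[κ] L[X], ∀ f, T f = f.comp (X + C a) :=
    ⟨(Polynomial.aeval (X + C a : L[X]) : L[X] →ₐ[L] L[X]).restrictScalars κ, fun f => rfl⟩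
  have hlin : ∀ (s : ℝ≥0) (b : L), (Ber.res T (gx N s)).v (X - C b) = max (s : ℝ) (N.v (a - b)) := by
    intro s b
    rw [Ber.res_v, hT, sub_comp, X_comp, C_comp, add_sub_assoc, ← C_sub, gx_X_add_C]
  have hC : ∀ (s : ℝ≥0) (b : L), (Ber.res T (gx N s)).v (C b) = N.v b := by
    intro s b
    rw [Ber.res_v, hT, C_comp, gx_C]
  rw [← hT, ← Ber.res_v, ← Ber.res_v, stmtProd κ L _ (β.map (algebraMap κ L)),
    stmtProd κ L (Ber.res T (gx N ρ)) (β.map (algebraMap κ L)), hC, hC]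
  congr 2
  apply Multiset.map_congr rfl
  intro b hb
  rw [hlin, hlin, max_eq_right (h b hb), max_eq_right ((NNReal.coe_le_coe.2 hs).trans (h b hb))]

end

section

variable {κ : Type} [NormedField κ] [IsUltrametricDist κ]

/-- The property of `α` in the proof. -/
def OvD (η : Ber κ κ[X]) (b c α : κ[X]) : Prop :=
  α ≠ 0 ∧ ∃ (k : ℕ) (β : κ[X]), Rel η (X ^ k * α * b) (β * c)

/-- Claim 1. -/
theorem ov_claim1 {ρ : ℝ≥0} (hρ : 0 < ρ) {b c α : κ[X]} (hD : OvD (gx (nrm κ) ρ) b c α)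
    (hmin : ∀ α', OvD (gx (nrm κ) ρ) b c α' → α.natDegree ≤ α'.natDegree)
    (hα : (nrm κ).v α.leadingCoeff * (ρ : ℝ) ^ α.natDegree = (gx (nrm κ) ρ).v α) {α' : κ[X]}
    (hD' : OvD (gx (nrm κ) ρ) b c α') :
    Rel (gx (nrm κ) ρ) α' (α * (α' / α)) := by
  obtain ⟨η, hη⟩ : ∃ η, η = gx (nrm κ) ρ := ⟨_, rfl⟩
  rw [← hη] at hD hmin hα hD' ⊢
  obtain ⟨hα0, k, β, hk⟩ := hD
  obtain ⟨hα'0, k', β', hk'⟩ := hD'
  have hdm : α * (α' / α) + α' % α = α' := EuclideanDomain.div_add_mod α' α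
  have hpos : ∀ f : κ[X], f ≠ 0 → 0 < η.v f := fun f hf => by rw [hη]; exact gx_pos _ hρ hf
  have hmod : η.v (α' % α) ≤ η.v α' := by
    rw [hη]; exact gx_mod_le (nrm κ) hρ hα0 (by rw [hα, hη]) α'
  by_contra hcon
  have hsub : α' - α * (α' / α) = α' % α := by rw [sub_eq_iff_eq_add', hdm]
  have hr : η.v (α' % α) = η.v α' := by
    apply le_antisymm hmod
    unfold Rel at hcon
    rwa [hsub, not_lt] at hcon
  have hr0 : α' % α ≠ 0 := by
    intro h
    rw [h, η.zero] at hr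
    exact (hpos α' hα'0).ne hr
  have hdeg : (α' % α).natDegree < α.natDegree :=
    natDegree_lt_natDegree hr0 (degree_mod_lt α' hα0)
  refine absurd (hmin (α' % α) ⟨hr0, k + k', X ^ k * β' - X ^ k' * (α' / α) * β, ?_⟩)
    (not_le.2 hdeg)
  have hX : 0 < η.v (X : κ[X]) := hpos X X_ne_zero
  have hb : 0 < η.v b := by
    have h1 := hk.pos
    rw [η.mul] at h1
    exact pos_of_mul_pos_right h1 (η.nonneg _)
  -- the value
  obtain ⟨M, hM⟩ : ∃ M, M = η.v X ^ (k + k') * η.v α' * η.v b := ⟨_, rfl⟩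
  have hM0 : 0 < M := by rw [hM]; exact mul_pos (mul_pos (pow_pos hX _) (hpos α' hα'0)) hb
  have hval : η.v (X ^ (k + k') * (α' % α) * b) = M := by
    rw [η.mul, η.mul, η.pow, hr, hM]
  unfold Rel
  rw [hval]
  have hid : X ^ (k + k') * (α' % α) * b - (X ^ k * β' - X ^ k' * (α' / α) * β) * c =
      X ^ k * (X ^ k' * α' * b - β' * c) - (α' / α) * X ^ k' * (X ^ k * α * b - β * c) := by
    rw [← hsub, pow_add]; ring
  rw [hid]
  refine (η.sub _ _).trans_lt (max_lt ?_ ?_)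
  · rw [η.mul, η.pow]
    have h1 : η.v (X ^ k' * α' * b - β' * c) < η.v X ^ k' * η.v α' * η.v b := by
      have := hk'
      unfold Rel at this
      rwa [η.mul (X ^ k' * α'), η.mul (X ^ k'), η.pow] at this
    calc η.v X ^ k * η.v (X ^ k' * α' * b - β' * c)
        < η.v X ^ k * (η.v X ^ k' * η.v α' * η.v b) := mul_lt_mul_of_pos_left h1 (pow_pos hX _)
      _ = M := by rw [hM, pow_add]; ring
  · rw [η.mul, η.mul, η.pow]
    rcases eq_or_ne (α' / α) 0 with hq | hq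
    · rw [hq, η.zero, zero_mul, zero_mul]; exact hM0
    have h1 : η.v (X ^ k * α * b - β * c) < η.v X ^ k * η.v α * η.v b := by
      have := hk
      unfold Rel at this
      rwa [η.mul (X ^ k * α), η.mul (X ^ k), η.pow] at this
    have h2 : η.v α * η.v (α' / α) ≤ η.v α' := by
      rw [← η.mul]
      have : α * (α' / α) = α' - α' % α := by rw [eq_sub_iff_add_eq, hdm]
      rw [this]
      exact (η.sub _ _).trans (max_le le_rfl hmod)
    calc η.v (α' / α) * η.v X ^ k' * η.v (X ^ k * α * b - β * c)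
        < η.v (α' / α) * η.v X ^ k' * (η.v X ^ k * η.v α * η.v b) :=
          mul_lt_mul_of_pos_left h1 (mul_pos (hpos _ hq) (pow_pos hX _))
      _ = (η.v α * η.v (α' / α)) * (η.v X ^ (k + k') * η.v b) := by rw [pow_add]; ring
      _ ≤ η.v α' * (η.v X ^ (k + k') * η.v b) :=
          mul_le_mul_of_nonneg_right h2 (mul_pos (pow_pos hX _) hb).le
      _ = M := by rw [hM]; ring

/-- Claim A: the path. -/
theorem ov_claimA {ρ : ℝ≥0} {b c : κ[X]} (hb : b ≠ 0)
    (h : ∀ᶠ e in 𝓝 (gx (nrm κ) ρ), e.v X = (ρ : ℝ) →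
      e.v b * (gx (nrm κ) ρ).v c ≤ (gx (nrm κ) ρ).v b * e.v c)
    {L : Type} [Field L] [Algebra κ L] [IsAlgClosed L] (N : Ber κ L) (hρ : 0 < ρ)
    {α β : κ[X]} {k : ℕ} (hα0 : α ≠ 0) (hk : Rel (gx (nrm κ) ρ) (X ^ k * α * b) (β * c))
    {a : L} (ha : N.v a ≤ ρ) (hroot : (α.map (algebraMap κ L)).eval a = 0) :
    ∃ b' ∈ ((X * β).map (algebraMap κ L)).roots, N.v (a - b') < ρ := by
  by_contra hcon
  push Not at hcon
  obtain ⟨η, hη⟩ : ∃ η, η = gx (nrm κ) ρ := ⟨_, rfl⟩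
  have hpos : ∀ f : κ[X], f ≠ 0 → 0 < η.v f := fun f hf => by rw [hη]; exact gx_pos _ hρ hf
  have hβc : β * c ≠ 0 := by
    intro h0
    have := hk.symm.pos
    rw [h0, Ber.zero] at this
    exact lt_irrefl _ this
  have hβ : β ≠ 0 := left_ne_zero_of_mul hβc
  have hc : c ≠ 0 := right_ne_zero_of_mul hβc
  -- the values of `X` and `β` along the path
  have hXβ : ∀ s : ℝ≥0, s ≤ ρ → (ovp N a s).v X = η.v X ∧ (ovp N a s).v β = η.v β := by
    intro s hs
    have h1 : (ovp N a s).v (X * β) = η.v (X * β) := by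
      rw [hη]; exact ovp_eq N ha hs hcon
    have h2 : ovp N a s ≤ η := by
      rw [hη, ← ovp_top N ha]; exact ovp_mono N a hs
    have h3 := h2 X
    have h4 := h2 β
    rw [Ber.mul, Ber.mul] at h1
    have hX : 0 < η.v (X : κ[X]) := hpos X X_ne_zero
    have h5 : (ovp N a s).v X = η.v X := by
      by_contra hne
      have h6 : (ovp N a s).v X < η.v X := lt_of_le_of_ne h3 hne
      have h7 : (ovp N a s).v X * (ovp N a s).v β < η.v X * η.v β :=
        mul_lt_mul_of_lt_of_le_of_nonneg_of_pos h6 h4 (Ber.nonneg _ _) (hpos β hβ)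
      exact absurd h1 h7.ne
    refine ⟨h5, ?_⟩
    rw [h5] at h1
    exact mul_left_cancel₀ hX.ne' h1
  -- near the end of the path
  have htend : Filter.Tendsto (fun s : ℝ≥0 => ovp N a s) (𝓝[<] ρ) (𝓝 (gx (nrm κ) ρ)) := by
    have := (continuous_ovp N a).tendsto ρ
    rw [ovp_top N ha] at this
    exact this.mono_left nhdsWithin_le_nhds
  have hev := ((htend.eventually h).and (htend.eventually hk.eventually)).and
    (self_mem_nhdsWithin : Set.Iio ρ ∈ 𝓝[<] ρ)
  have : (𝓝[<] ρ).NeBot := nhdsLT_neBot_of_exists_lt ⟨0, hρ⟩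
  obtain ⟨s, ⟨hs1, hs2⟩, hs3⟩ := hev.exists
  have hs3' : s < ρ := hs3
  obtain ⟨e, he⟩ : ∃ e, e = ovp N a s := ⟨_, rfl⟩
  rw [← he] at hs1 hs2
  obtain ⟨hX, hβe⟩ := hXβ s hs3'.le
  rw [← he] at hX hβe
  have hXρ : e.v X = ρ := by rw [hX, hη, gx_X]
  have h1 := hs1 hXρ
  rw [← hη] at h1 hk
  have h2 := hs2.v_eq
  rw [e.mul, e.mul, e.mul, e.pow, hβe, hX] at h2
  have h3 := hk.v_eq
  rw [η.mul, η.mul, η.mul, η.pow] at h3
  have hαlt : e.v α < η.v α := by rw [he, hη]; exact ovp_lt N ha hs3' hα0 hroot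
  have heb : 0 < e.v b := by
    have h4 := hs2.pos
    rw [e.mul] at h4
    exact pos_of_mul_pos_right h4 (e.nonneg _)
  have hX0 : 0 < η.v (X : κ[X]) := hpos X X_ne_zero
  have hβ0 := hpos β hβ
  have hb0 := hpos b hb
  have hxk := pow_pos hX0 k
  -- multiply by the value of `β`
  have h5 : e.v b * (η.v β * η.v c) ≤ η.v b * (η.v β * e.v c) := by
    calc e.v b * (η.v β * η.v c) = η.v β * (e.v b * η.v c) := by ring
      _ ≤ η.v β * (η.v b * e.v c) := mul_le_mul_of_nonneg_left h1 hβ0.le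
      _ = _ := by ring
  rw [h2, h3] at h5
  have h6 : η.v X ^ k * η.v b * e.v b * e.v α < η.v X ^ k * η.v b * e.v b * η.v α :=
    mul_lt_mul_of_pos_left hαlt (mul_pos (mul_pos hxk hb0) heb)
  have h7 : e.v b * (η.v X ^ k * η.v α * η.v b) = η.v X ^ k * η.v b * e.v b * η.v α := by ring
  have h8 : η.v b * (η.v X ^ k * e.v α * e.v b) = η.v X ^ k * η.v b * e.v b * e.v α := by ring
  rw [h7, h8] at h5
  exact absurd h5 (not_le.2 h6)

/-- Claim B: `α` divides a power of `X β` up to smaller terms. -/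
theorem ov_claimB {ρ : ℝ≥0} (hρ : 0 < ρ) {L : Type} [Field L] [Algebra κ L] [IsAlgClosed L]
    (N : Ber κ L) {α G : κ[X]} (hα0 : α ≠ 0) (hG : G ≠ 0)
    (hα : (nrm κ).v α.leadingCoeff * (ρ : ℝ) ^ α.natDegree = (gx (nrm κ) ρ).v α)
    (hr : ∀ a ∈ (α.map (algebraMap κ L)).roots, N.v a ≤ ρ ∧
      ∃ b' ∈ (G.map (algebraMap κ L)).roots, N.v (a - b') < ρ) :
    Rel (gx (nrm κ) ρ) (G ^ (α.map (algebraMap κ L)).roots.card)
      (α * (G ^ (α.map (algebraMap κ L)).roots.card / α)) := by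
  classical
  obtain ⟨α', hα'⟩ : ∃ α', α' = α.map (algebraMap κ L) := ⟨_, rfl⟩
  obtain ⟨G', hG'⟩ : ∃ G', G' = G.map (algebraMap κ L) := ⟨_, rfl⟩
  rw [← hα', ← hG'] at hr
  rw [← hα']
  obtain ⟨D, hD⟩ : ∃ D, D = α'.roots.card := ⟨_, rfl⟩
  rw [← hD]
  have hα'0 : α' ≠ 0 := by
    rw [hα']; exact (Polynomial.map_ne_zero_iff (algebraMap κ L).injective).2 hα0
  have hG'0 : G' ≠ 0 := by
    rw [hG']; exact (Polynomial.map_ne_zero_iff (algebraMap κ L).injective).2 hG
  -- the close roots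
  have hex : ∀ a : L, ∃ b' : L, a ∈ α'.roots → b' ∈ G'.roots ∧ N.v (a - b') < ρ := by
    intro a
    by_cases ha : a ∈ α'.roots
    · obtain ⟨-, b', hb', hb''⟩ := hr a ha
      exact ⟨b', fun _ => ⟨hb', hb''⟩⟩
    · exact ⟨0, fun h => absurd h ha⟩
  choose bf hbf using hex
  obtain ⟨P1, hP1⟩ : ∃ P1, P1 = (α'.roots.map fun a => X - C a).prod := ⟨_, rfl⟩
  obtain ⟨P2, hP2⟩ : ∃ P2, P2 = (α'.roots.map fun a => X - C (bf a)).prod := ⟨_, rfl⟩
  have hrel : Rel (gx N ρ) P2 P1 := by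
    rw [hP1, hP2]
    refine Rel.multiset_prod _ _ _ fun a ha => ?_
    have h1 := hr a ha
    have h2 := hbf a ha
    unfold Rel
    have e1 : (X - C (bf a) : L[X]) - (X - C a) = C (a - bf a) := by rw [C_sub]; ring
    have e2 : (X - C (bf a) : L[X]) = X + C (-bf a) := by rw [C_neg]; ring
    rw [e1, gx_C, e2, gx_X_add_C]
    exact lt_max_of_lt_left h2.2
  have hsplit : α' = C α'.leadingCoeff * P1 := by
    rw [hP1]
    exact (IsAlgClosed.splits α').eq_prod_roots
  -- `G'^D` is divisible by `P2`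
  obtain ⟨γ, hγ⟩ : P2 ∣ G' ^ D := by
    have h1 : (α'.roots.map fun a => X - C (bf a)).prod ∣ (α'.roots.map fun _ => G').prod := by
      refine Multiset.prod_dvd_prod_of_dvd _ _ fun a ha => ?_
      exact dvd_iff_isRoot.2 (isRoot_of_mem_roots (hbf a ha).1)
    rw [Multiset.map_const', Multiset.prod_replicate, ← hD] at h1
    rw [hP2]; exact h1
  have hGD : G' ^ D ≠ 0 := pow_ne_zero _ hG'0
  have hγ0 : γ ≠ 0 := by
    rintro rfl
    rw [mul_zero] at hγ
    exact hGD hγ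
  have hrel2 : Rel (gx N ρ) (G' ^ D) (P1 * γ) := by
    rw [hγ]; exact hrel.mul_right (gx_pos N hρ hγ0)
  have hlc : α'.leadingCoeff ≠ 0 := leadingCoeff_ne_zero.2 hα'0
  have hdiv : α' ∣ P1 * γ := by
    refine ⟨C α'.leadingCoeff⁻¹ * γ, ?_⟩
    have e1 : C α'.leadingCoeff * P1 * (C α'.leadingCoeff⁻¹ * γ) =
        C (α'.leadingCoeff * α'.leadingCoeff⁻¹) * (P1 * γ) := by rw [C_mul]; ring
    rw [mul_inv_cancel₀ hlc, C_1, one_mul, ← hsplit] at e1
    exact e1.symm
  -- the remainder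
  have hmod : (G' ^ D) % α' = (G' ^ D - P1 * γ) % α' := by
    rw [sub_mod, EuclideanDomain.mod_eq_zero.2 hdiv, sub_zero]
  have hα'lc : N.v α'.leadingCoeff * (ρ : ℝ) ^ α'.natDegree = (gx N ρ).v α' := by
    rw [hα', gx_map, leadingCoeff_map, natDegree_map, N.ext]
    exact hα
  have h3 : (gx N ρ).v ((G' ^ D) % α') < (gx N ρ).v (G' ^ D) := by
    rw [hmod]
    exact (gx_mod_le N hρ hα'0 hα'lc _).trans_lt hrel2
  have h4 : (gx (nrm κ) ρ).v (G ^ D % α) < (gx (nrm κ) ρ).v (G ^ D) := by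
    rw [← gx_map N, ← gx_map N, Polynomial.map_mod, Polynomial.map_pow, ← hG', ← hα']
    exact h3
  unfold Rel
  have h5 : G ^ D - α * (G ^ D / α) = G ^ D % α := by
    rw [sub_eq_iff_eq_add', EuclideanDomain.div_add_mod]
  rw [h5]; exact h4

/-- **(OV)** Bounded fractions in one variable are Laurent polynomials up to smaller terms. -/
theorem ov {ρ : ℝ≥0} (hρ : 0 < ρ) {b c : κ[X]} (hb : b ≠ 0) (hc : c ≠ 0)
    (h : ∀ᶠ e in 𝓝 (gx (nrm κ) ρ), e.v X = (ρ : ℝ) →
      e.v b * (gx (nrm κ) ρ).v c ≤ (gx (nrm κ) ρ).v b * e.v c) :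
    ∃ (n : ℕ) (P : κ[X]), Rel (gx (nrm κ) ρ) (X ^ n * b) (P * c) := by
  classical
  obtain ⟨η, hη⟩ : ∃ η, η = gx (nrm κ) ρ := ⟨_, rfl⟩
  have hpos : ∀ f : κ[X], f ≠ 0 → 0 < η.v f := fun f hf => by rw [hη]; exact gx_pos _ hρ hf
  -- minimal element
  have hne : ∃ n, ∃ α, OvD η b c α ∧ α.natDegree = n := by
    refine ⟨c.natDegree, c, ⟨hc, 0, b, ?_⟩, rfl⟩
    rw [pow_zero, one_mul, mul_comm c b]
    exact Rel.refl (hpos _ (mul_ne_zero hb hc))
  obtain ⟨α0, hα0D, hα0n⟩ := Nat.find_spec hne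
  have hmin0 : ∀ α', OvD η b c α' → α0.natDegree ≤ α'.natDegree := by
    intro α' h'
    rw [hα0n]
    exact Nat.find_min' hne ⟨α', h', rfl⟩
  -- strip it
  obtain ⟨α, hrel, hα0, hdeg, hlc, -, -⟩ := gx_strip (nrm κ) hρ hα0D.1
  rw [← hη] at hrel hlc
  have hD : OvD η b c α := by
    obtain ⟨-, k, β, hk⟩ := hα0D
    refine ⟨hα0, k, β, ?_⟩
    refine Rel.trans ?_ hk
    exact ((hrel.symm.mul_left (hpos _ (pow_ne_zero k X_ne_zero))).mul_right (hpos b hb))
  have hmin : ∀ α', OvD η b c α' → α.natDegree ≤ α'.natDegree :=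
    fun α' h' => hdeg.trans (hmin0 α' h')
  obtain ⟨-, k, β, hk⟩ := hD
  have hβ : β ≠ 0 := by
    rintro rfl
    have := hk.symm.pos
    rw [zero_mul, Ber.zero] at this
    exact lt_irrefl _ this
  -- the algebraic closure
  obtain ⟨N, -⟩ := stmtLift κ κ (AlgebraicClosure κ) (algebraMap κ (AlgebraicClosure κ)).injective
    (nrm κ)
  -- roots of α have norm at most ρ
  have hroots : ∀ a ∈ (α.map (algebraMap κ (AlgebraicClosure κ))).roots, N.v a ≤ ρ := by
    intro a ha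
    by_contra hcon
    push Not at hcon
    have ha' : (α.map (algebraMap κ (AlgebraicClosure κ))).eval a = 0 := isRoot_of_mem_roots ha
    -- the leading term dominates
    have h1 : N.v ((α.map (algebraMap κ (AlgebraicClosure κ))).leadingCoeff *
        a ^ (α.map (algebraMap κ (AlgebraicClosure κ))).natDegree) ≤ 0 := by
      have h2 := Polynomial.eval_eq_sum_range (p := α.map (algebraMap κ (AlgebraicClosure κ))) a
      rw [ha', Finset.sum_range_succ] at h2
      rw [leadingCoeff]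
      have h3 : (α.map (algebraMap κ (AlgebraicClosure κ))).coeff
          (α.map (algebraMap κ (AlgebraicClosure κ))).natDegree *
          a ^ (α.map (algebraMap κ (AlgebraicClosure κ))).natDegree =
          -∑ i ∈ Finset.range (α.map (algebraMap κ (AlgebraicClosure κ))).natDegree,
            (α.map (algebraMap κ (AlgebraicClosure κ))).coeff i * a ^ i := by
        rw [eq_neg_iff_add_eq_zero, add_comm]; exact h2.symm
      by_contra hlt
      push Not at hlt
      have h4 : N.v ((α.map (algebraMap κ (AlgebraicClosure κ))).coeff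
          (α.map (algebraMap κ (AlgebraicClosure κ))).natDegree *
          a ^ (α.map (algebraMap κ (AlgebraicClosure κ))).natDegree) <
          N.v ((α.map (algebraMap κ (AlgebraicClosure κ))).coeff
          (α.map (algebraMap κ (AlgebraicClosure κ))).natDegree *
          a ^ (α.map (algebraMap κ (AlgebraicClosure κ))).natDegree) := by
        conv_lhs => rw [h3]
        rw [N.neg]
        refine N.sum_lt _ _ hlt fun i hi => ?_
        have hi' : i < α.natDegree := by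
          rw [natDegree_map] at hi
          exact Finset.mem_range.1 hi
        rw [N.mul, N.mul, N.pow, N.pow, coeff_map, coeff_map, natDegree_map, N.ext, N.ext]
        have h5 : ‖α.coeff i‖ * (ρ : ℝ) ^ i ≤ ‖α.coeff α.natDegree‖ * (ρ : ℝ) ^ α.natDegree := by
          have h6 := gx_le (nrm κ) ρ α i
          rw [← hη, ← hlc] at h6
          exact h6
        have hρ' : (0 : ℝ) < ρ := hρ
        have ha0 : 0 < N.v a := hρ'.trans hcon
        have hlc0 : 0 < ‖α.coeff α.natDegree‖ :=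
          norm_pos_iff.2 (leadingCoeff_ne_zero.2 hα0)
        obtain ⟨d, hd⟩ : ∃ d, α.natDegree = i + (d + 1) := ⟨α.natDegree - i - 1, by omega⟩
        have h7 : ‖α.coeff i‖ ≤ ‖α.coeff α.natDegree‖ * (ρ : ℝ) ^ (d + 1) := by
          rw [hd, pow_add, ← mul_assoc, mul_assoc, mul_comm ((ρ : ℝ) ^ i), ← mul_assoc] at h5
          rw [hd]
          exact le_of_mul_le_mul_right h5 (pow_pos hρ' i)
        calc ‖α.coeff i‖ * N.v a ^ i
            ≤ ‖α.coeff α.natDegree‖ * (ρ : ℝ) ^ (d + 1) * N.v a ^ i :=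
              mul_le_mul_of_nonneg_right h7 (pow_nonneg ha0.le _)
          _ < ‖α.coeff α.natDegree‖ * N.v a ^ (d + 1) * N.v a ^ i := by
              refine mul_lt_mul_of_pos_right ?_ (pow_pos ha0 _)
              refine mul_lt_mul_of_pos_left ?_ hlc0
              exact pow_lt_pow_left₀ hcon hρ'.le (Nat.succ_ne_zero d)
          _ = ‖α.coeff α.natDegree‖ * N.v a ^ α.natDegree := by rw [hd, pow_add]; ring
      exact lt_irrefl _ h4
    have hα'0 : α.map (algebraMap κ (AlgebraicClosure κ)) ≠ 0 :=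
      (Polynomial.map_ne_zero_iff (algebraMap κ (AlgebraicClosure κ)).injective).2 hα0
    have ha0 : a ≠ 0 := by
      rintro rfl
      rw [N.zero] at hcon
      exact absurd hcon (not_lt.2 (NNReal.coe_nonneg ρ))
    exact absurd h1 (not_le.2 (N.field_pos (mul_ne_zero (leadingCoeff_ne_zero.2 hα'0)
      (pow_ne_zero _ ha0))))
  -- claim (A) and (B)
  have hA : ∀ a ∈ (α.map (algebraMap κ (AlgebraicClosure κ))).roots, N.v a ≤ ρ ∧
      ∃ b' ∈ ((X * β).map (algebraMap κ (AlgebraicClosure κ))).roots, N.v (a - b') < ρ := by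
    intro a ha
    refine ⟨hroots a ha, ?_⟩
    exact ov_claimA hb h N hρ hα0 (by rw [← hη]; exact hk) (hroots a ha) (isRoot_of_mem_roots ha)
  have hB := ov_claimB hρ N hα0 (mul_ne_zero X_ne_zero hβ) (by rw [← hη]; exact hlc) hA
  rw [← hη] at hB ⊢
  -- the minimal power
  have hm : ∃ m : ℕ, ∃ (j : ℕ) (q : κ[X]), Rel η (X ^ j * (X * β) ^ m) (α * q) :=
    ⟨_, 0, _, by rw [pow_zero, one_mul]; exact hB⟩
  obtain ⟨m, ⟨j, q, hq⟩, hmmin⟩ : ∃ m : ℕ, (∃ (j : ℕ) (q : κ[X]),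
      Rel η (X ^ j * (X * β) ^ m) (α * q)) ∧ ∀ m' < m, ¬ ∃ (j : ℕ) (q : κ[X]),
      Rel η (X ^ j * (X * β) ^ m') (α * q) :=
    ⟨Nat.find hm, Nat.find_spec hm, fun m' hm' => Nat.find_min hm hm'⟩
  have hq0 : q ≠ 0 := by
    rintro rfl
    have := hq.symm.pos
    rw [mul_zero, Ber.zero] at this
    exact lt_irrefl _ this
  rcases m with _ | m
  · -- `X^j ∼ α q`
    refine ⟨k + j, β * q, ?_⟩
    rw [pow_zero, mul_one] at hq
    have h1 : Rel η (X ^ k * α * b * q) (β * c * q) := hk.mul_right (hpos q hq0)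
    have h2 : Rel η (X ^ k * b * X ^ j) (X ^ k * b * (α * q)) :=
      hq.mul_left (hpos _ (mul_ne_zero (pow_ne_zero _ X_ne_zero) hb))
    refine ((h2.congr_left (by rw [pow_add]; ring)).congr_right (y' := X ^ k * α * b * q)
      (by ring)).trans ?_
    exact h1.congr_right (by ring)
  · exfalso
    refine hmmin m (Nat.lt_succ_self m) ⟨0, (X * β) ^ m / α, ?_⟩
    rw [pow_zero, one_mul]
    have hXβ : (X * β) ^ m ≠ 0 := pow_ne_zero _ (mul_ne_zero X_ne_zero hβ)
    have hD' : OvD η b c ((X * β) ^ m) := by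
      refine ⟨hXβ, k + 1 + j, q, ?_⟩
      have h1 : Rel η (((X * β) ^ m * X ^ (1 + j)) * (X ^ k * α * b))
          (((X * β) ^ m * X ^ (1 + j)) * (β * c)) :=
        hk.mul_left (hpos _ (mul_ne_zero hXβ (pow_ne_zero _ X_ne_zero)))
      have h2 : Rel η (X ^ j * (X * β) ^ (m + 1) * c) (α * q * c) := hq.mul_right (hpos c hc)
      have h3 : Rel η (α * (X ^ (k + 1 + j) * (X * β) ^ m * b)) (α * (q * c)) := by
        refine ((h1.congr_left ?_).congr_right (y' := X ^ j * (X * β) ^ (m + 1) * c) ?_).trans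
          (h2.congr_right ?_)
        · rw [pow_add X (k + 1) j, pow_add X k 1, pow_add X 1 j]; ring
        · rw [pow_add X 1 j, pow_succ (X * β) m]; ring
        · ring
      exact h3.cancel_left
    have := ov_claim1 hρ (b := b) (c := c) (α := α) (by rw [← hη]; exact ⟨hα0, k, β, hk⟩)
      (by rw [← hη]; exact hmin) (by rw [← hη]; exact hlc) (α' := (X * β) ^ m)
      (by rw [← hη]; exact hD')
    rw [← hη] at this
    exact this

end

end Pool.Agent.TD
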