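import Pool.Agent.TD.GP.Gm

/-!
# The relation `|x - y| < |x|` (MP_90358a_ag, PAPER2.md ND6)
-/

open scoped Topology NNReal Polynomial
open Polynomial

namespace Pool.Agent.TD

/-- `x ∼ y` at `η`: `|x - y| < |x|`. -/
def Rel {K A : Type} [NormedField K] [CommRing A] [Algebra K A] (η : Ber K A) (x y : A) : Prop :=
  η.v (x - y) < η.v x

section

variable {K A B : Type} [NormedField K] [CommRing A] [Algebra K A] [CommRing B] [Algebra K B]
  {η : Ber K A} {x y x' y' c : A}

theorem Rel.pos (h : Rel η x y) : 0 < η.v x := (η.nonneg _).trans_lt h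

theorem Rel.v_eq (h : Rel η x y) : η.v y = η.v x := η.sub_eq h

theorem Rel.symm (h : Rel η x y) : Rel η y x := by
  unfold Rel
  rw [η.sub_comm, h.v_eq]; exact h

theorem Rel.refl (h : 0 < η.v x) : Rel η x x := by
  unfold Rel
  rwa [sub_self, η.zero]

theorem Rel.trans (h : Rel η x y) (h' : Rel η y c) : Rel η x c := by
  unfold Rel
  have h1 : x - c = (x - y) + (y - c) := by ring
  rw [h1]
  refine (η.add _ _).trans_lt (max_lt h ?_)
  rw [← h.v_eq]; exact h'

theorem Rel.mul_left (hc : 0 < η.v c) (h : Rel η x y) : Rel η (c * x) (c * y) := by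
  unfold Rel
  rw [← mul_sub, η.mul, η.mul]
  exact mul_lt_mul_of_pos_left h hc

theorem Rel.mul_right (hc : 0 < η.v c) (h : Rel η x y) : Rel η (x * c) (y * c) := by
  rw [mul_comm x, mul_comm y]; exact h.mul_left hc

theorem Rel.cancel_left (h : Rel η (c * x) (c * y)) : Rel η x y := by
  unfold Rel at h ⊢
  rw [← mul_sub, η.mul, η.mul] at h
  exact lt_of_mul_lt_mul_left h (η.nonneg _)

theorem Rel.mul (h : Rel η x y) (h' : Rel η x' y') : Rel η (x * x') (y * y') :=
  (h.mul_right h'.pos).trans (h'.mul_left h.symm.pos)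

theorem Rel.pow (h : Rel η x y) (n : ℕ) : Rel η (x ^ n) (y ^ n) := by
  induction n with
  | zero =>
    rw [pow_zero, pow_zero]
    exact Rel.refl (by rw [η.one]; exact one_pos)
  | succ n ih => rw [pow_succ, pow_succ]; exact ih.mul h

theorem Rel.congr_left (h : Rel η x y) (e : x' = x) : Rel η x' y := e ▸ h

theorem Rel.congr_right (h : Rel η x y) (e : y' = y) : Rel η x y' := e ▸ h

theorem Rel.res {φ : B →ₐ[K] A} {x y : B} : Rel (Ber.res φ η) x y ↔ Rel η (φ x) (φ y) := by
  unfold Rel
  rw [Ber.res_v, Ber.res_v, map_sub]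

theorem Rel.multiset_prod {ι : Type} (s : Multiset ι) (f g : ι → A)
    (h : ∀ i ∈ s, Rel η (f i) (g i)) : Rel η (s.map f).prod (s.map g).prod := by
  induction s using Multiset.induction_on with
  | empty =>
    rw [Multiset.map_zero, Multiset.map_zero, Multiset.prod_zero]
    exact Rel.refl (by rw [η.one]; exact one_pos)
  | cons a s ih =>
    rw [Multiset.map_cons, Multiset.map_cons, Multiset.prod_cons, Multiset.prod_cons]
    exact (h a (Multiset.mem_cons_self a s)).mul
      (ih fun i hi => h i (Multiset.mem_cons_of_mem hi))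

/-- The relation is an open condition. -/
theorem Rel.eventually (h : Rel η x y) : ∀ᶠ e in 𝓝 η, Rel e x y :=
  (Ber.continuous_v (x - y)).continuousAt.eventually_lt (Ber.continuous_v x).continuousAt h

end

section field

variable {K F : Type} [NormedField K] [Field F] [Algebra K F]

theorem Ber.field_pos (N : Ber K F) {a : F} (ha : a ≠ 0) : 0 < N.v a := by
  refine lt_of_le_of_ne (N.nonneg a) fun h => ?_
  have h1 : N.v (a * a⁻¹) = 0 := by rw [N.mul, ← h, zero_mul]
  rw [mul_inv_cancel₀ ha, N.one] at h1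
  exact one_ne_zero h1

theorem Ber.field_eq_zero (N : Ber K F) {a : F} : N.v a = 0 ↔ a = 0 :=
  ⟨fun h => by by_contra hc; exact (N.field_pos hc).ne' h, fun h => by rw [h, N.zero]⟩

theorem Ber.field_div (N : Ber K F) (a b : F) : N.v (a / b) = N.v a / N.v b := by
  rcases eq_or_ne b 0 with rfl | hb
  · rw [div_zero, N.zero, div_zero]
  · rw [eq_div_iff (N.field_pos hb).ne', ← N.mul, div_mul_cancel₀ a hb]

theorem gx_pos (N : Ber K F) {ρ : ℝ≥0} (hρ : 0 < ρ) {f : F[X]} (hf : f ≠ 0) :
    0 < (gx N ρ).v f := by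
  refine lt_of_lt_of_le ?_ (gx_le N ρ f f.natDegree)
  exact mul_pos (N.field_pos (leadingCoeff_ne_zero.2 hf)) (by positivity)

theorem gx_monomial {A : Type} [CommRing A] [Algebra K A] (N : Ber K A) (ρ : ℝ≥0) (n : ℕ) (a : A) :
    (gx N ρ).v (monomial n a) = N.v a * (ρ : ℝ) ^ n := by
  rw [← C_mul_X_pow_eq_monomial, (gx N ρ).mul, gx_C, (gx N ρ).pow, gx_X]

/-- **Division with control of the norms.** -/
theorem gx_mod_le (N : Ber K F) {ρ : ℝ≥0} (hρ : 0 < ρ) {α : F[X]} (hα0 : α ≠ 0)
    (hα : N.v α.leadingCoeff * (ρ : ℝ) ^ α.natDegree = (gx N ρ).v α) (f : F[X]) :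
    (gx N ρ).v (f % α) ≤ (gx N ρ).v f := by
  classical
  have key : ∀ n, ∀ f : F[X], f.natDegree ≤ n → (gx N ρ).v (f % α) ≤ (gx N ρ).v f := by
    intro n
    induction n with
    | zero =>
      intro f hf
      rcases lt_or_ge f.degree α.degree with h | h
      · rw [mod_eq_self_iff hα0 |>.2 h]
      · rcases eq_or_ne f 0 with rfl | hf0
        · rw [EuclideanDomain.zero_mod]
        have h1 : α.natDegree ≤ 0 := (natDegree_le_natDegree h).trans hf
        have h2 : f % α = 0 := by
          have hu : IsUnit α := by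
            rw [isUnit_iff_degree_eq_zero, degree_eq_natDegree hα0, Nat.le_zero.1 h1]; rfl
          exact EuclideanDomain.mod_eq_zero.2 hu.dvd
        rw [h2, Ber.zero]; exact Ber.nonneg _ _
    | succ n ih =>
      intro f hf
      rcases lt_or_ge f.degree α.degree with h | h
      · rw [mod_eq_self_iff hα0 |>.2 h]
      rcases eq_or_ne f 0 with rfl | hf0
      · rw [EuclideanDomain.zero_mod]
      have hle : α.natDegree ≤ f.natDegree := natDegree_le_natDegree h
      -- subtract the leading term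
      obtain ⟨m, hm⟩ : ∃ m, m = monomial (f.natDegree - α.natDegree)
          (f.leadingCoeff / α.leadingCoeff) := ⟨_, rfl⟩
      have hlc : α.leadingCoeff ≠ 0 := leadingCoeff_ne_zero.2 hα0
      have hval : (gx N ρ).v (m * α) = N.v f.leadingCoeff * (ρ : ℝ) ^ f.natDegree := by
        rw [(gx N ρ).mul, hm, gx_monomial, ← hα, N.field_div]
        have : (N.v α.leadingCoeff) ≠ 0 := (N.field_pos hlc).ne'
        rw [show f.natDegree = (f.natDegree - α.natDegree) + α.natDegree by omega, pow_add,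
          Nat.add_sub_cancel]
        field_simp
      have hmα : (gx N ρ).v (m * α) ≤ (gx N ρ).v f := by
        rw [hval]; exact gx_le N ρ f f.natDegree
      have h2 : (f - m * α) % α = f % α := by
        rw [sub_mod, EuclideanDomain.mod_eq_zero.2 (Dvd.intro_left m rfl), sub_zero]
      have h3 : (gx N ρ).v (f - m * α) ≤ (gx N ρ).v f := ((gx N ρ).sub _ _).trans
        (max_le le_rfl hmα)
      rw [← h2]
      refine le_trans (ih _ ?_) h3
      -- the degree drops
      have hm0 : m ≠ 0 := by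
        rw [hm, Ne, monomial_eq_zero_iff]
        exact div_ne_zero (leadingCoeff_ne_zero.2 hf0) hlc
      have hdeg : (m * α).natDegree = f.natDegree := by
        rw [natDegree_mul hm0 hα0, hm, natDegree_monomial, if_neg (div_ne_zero
          (leadingCoeff_ne_zero.2 hf0) hlc)]
        omega
      have hlead : (m * α).leadingCoeff = f.leadingCoeff := by
        rw [leadingCoeff_mul, hm, leadingCoeff_monomial, div_mul_cancel₀ _ hlc]
      rcases eq_or_ne (f - m * α) 0 with h0 | h0
      · rw [h0, natDegree_zero]; omega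
      have hd : (f - m * α).degree < f.degree := by
        refine degree_sub_lt_left ?_ hf0 hlead.symm
        rw [degree_eq_natDegree hf0, degree_eq_natDegree (mul_ne_zero hm0 hα0), hdeg]
      have := natDegree_lt_natDegree h0 hd
      omega
  exact key f.natDegree f le_rfl

/-- Keep the terms of maximal norm. -/
theorem gx_strip (N : Ber K F) {ρ : ℝ≥0} (hρ : 0 < ρ) {f : F[X]} (hf : f ≠ 0) :
    ∃ f' : F[X], Rel (gx N ρ) f f' ∧ f' ≠ 0 ∧ f'.natDegree ≤ f.natDegree ∧
      N.v f'.leadingCoeff * (ρ : ℝ) ^ f'.natDegree = (gx N ρ).v f' ∧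
      (∀ i, f'.coeff i ≠ 0 → N.v (f'.coeff i) * (ρ : ℝ) ^ i = (gx N ρ).v f') ∧
      ∀ i, f'.coeff i ≠ 0 → f'.coeff i = f.coeff i := by
  classical
  obtain ⟨S, hS⟩ : ∃ S : Finset ℕ, S = f.support.filter fun i =>
    N.v (f.coeff i) * (ρ : ℝ) ^ i = (gx N ρ).v f := ⟨_, rfl⟩
  obtain ⟨f', hf'⟩ : ∃ f' : F[X], f' = ∑ i ∈ S, monomial i (f.coeff i) := ⟨_, rfl⟩
  have hc : ∀ i, f'.coeff i = if i ∈ S then f.coeff i else 0 := by
    intro i
    rw [hf', finsetSum_coeff]
    simp only [coeff_monomial]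
    rw [Finset.sum_ite_eq' S i fun j => f.coeff j]
  have hrel : Rel (gx N ρ) f f' := by
    unfold Rel
    obtain ⟨i, hi⟩ := gx_ex N ρ (f - f')
    rw [hi, coeff_sub, hc]
    split_ifs with h
    · rw [sub_self, N.zero, zero_mul]; exact gx_pos N hρ hf
    · rw [sub_zero]
      refine lt_of_le_of_ne (gx_le N ρ f i) fun h1 => h ?_
      rw [hS, Finset.mem_filter]
      refine ⟨mem_support_iff.2 fun h2 => ?_, h1⟩
      rw [h2, N.zero, zero_mul] at h1
      exact (gx_pos N hρ hf).ne h1
  have hmax : ∀ i, f'.coeff i ≠ 0 → N.v (f'.coeff i) * (ρ : ℝ) ^ i = (gx N ρ).v f' := by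
    intro i hi
    have hiS : i ∈ S := by
      by_contra h
      rw [hc, if_neg h] at hi
      exact hi rfl
    rw [hrel.v_eq, hc, if_pos hiS]
    rw [hS] at hiS
    exact (Finset.mem_filter.1 hiS).2
  have hf'0 : f' ≠ 0 := by
    rintro h
    have := hrel.symm.pos
    rw [h, Ber.zero] at this
    exact lt_irrefl _ this
  refine ⟨f', hrel, hf'0, ?_, hmax _ (leadingCoeff_ne_zero.2 hf'0), hmax, ?_⟩
  · rw [natDegree_le_iff_coeff_eq_zero]
    intro i hi
    rw [hc]
    split_ifs with h
    · exact coeff_eq_zero_of_natDegree_lt hi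
    · rfl
  · intro i hi
    rw [hc] at hi ⊢
    split_ifs with h
    · rfl
    · rw [if_neg h] at hi; exact absurd rfl hi

/-- The value of `X - (b - a)`. -/
theorem gx_X_add_C {A : Type} [CommRing A] [Algebra K A] (N : Ber K A) (ρ : ℝ≥0) (a : A) :
    (gx N ρ).v (X + C a) = max (ρ : ℝ) (N.v a) := by
  apply le_antisymm
  · refine ((gx N ρ).add _ _).trans ?_
    rw [gx_X, gx_C]
  · apply max_le
    · have h := gx_le N ρ (X + C a) 1
      rwa [coeff_add, coeff_X_one, coeff_C_succ, add_zero, N.one, one_mul, pow_one] at h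
    · have h := gx_le N ρ (X + C a) 0
      rwa [coeff_add, coeff_X_zero, coeff_C_zero, zero_add, pow_zero, mul_one] at h

/-- Translations by elements of norm `≤ ρ` do not change the Gauss norm. -/
theorem gx_trans (N : Ber K F) (ρ : ℝ≥0) {a : F} (ha : N.v a ≤ ρ) (f : F[X]) :
    (gx N ρ).v (f.comp (X + C a)) = (gx N ρ).v f := by
  have h1 : ∀ b : F, N.v b ≤ ρ → ∀ f : F[X],
      (gx N ρ).v (f.comp (X + C b)) ≤ (gx N ρ).v f := by
    intro b hb f
    have h2 : Ber.res ((Polynomial.aeval (X + C b : F[X]) : F[X] →ₐ[F] F[X]).restrictScalars K)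
        (gx N ρ) ≤ gx N ρ := by
      refine le_gx (fun c => ?_) ?_
      · show (gx N ρ).v (Polynomial.aeval (X + C b : F[X]) (C c)) ≤ N.v c
        rw [aeval_C, algebraMap_eq, gx_C]
      · show (gx N ρ).v (Polynomial.aeval (X + C b : F[X]) X) ≤ ρ
        rw [aeval_X, gx_X_add_C]
        exact max_le le_rfl hb
    exact h2 f
  apply le_antisymm (h1 a ha f)
  have h3 := h1 (-a) (by rwa [N.neg]) (f.comp (X + C a))
  rwa [comp_assoc, add_comp, X_comp, C_comp, C_neg, neg_add_cancel_right, comp_X] at h3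

end field

end Pool.Agent.TD
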